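import Mathlib.Data.Set.Finite.Basic
import Mathlib.Data.Set.Finite.Lattice
import Mathlib.Data.Finite.Prod
import Mathlib.Data.Finset.Basic

/-!
# Finiteness of pure integral motives: large number fields and large sets of primes are enough
-/

universe u v

namespace Pool.Agent.Results.MP_78e9a5_nt.LargeFieldsSuffice

/-- Number fields, and the isomorphism classes of pure integral motives with the invariants and the
reductions of the problem. -/
structure Theory where
  /-- the number fields -/
  Fld : Type u
  /-- `F'` is a finite Galois extension of `F` -/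
  Galois : Fld → Fld → Prop
  /-- the prime numbers -/
  Prime : Type
  /-- the isomorphism classes of motives over `F` for the set `S` -/
  Mot : Fld → Finset Prime → Type v
  /-- the base change from `F` to `F'` -/
  bc : ∀ {F F' : Fld}, Galois F F' → ∀ S, Mot F S → Mot F' S
  /-- a motive over `F'` has finitely many forms over `F` -/
  finite_forms : ∀ {F F' : Fld} (h : Galois F F') (S) (N : Mot F' S), (bc h S ⁻¹' {N}).Finite
  /-- enlarging `S` -/
  incl : ∀ (F : Fld) {S S' : Finset Prime}, S ⊆ S' → Mot F S → Mot F S'
  incl_injective : ∀ (F : Fld) {S S' : Finset Prime} (h : S ⊆ S'), Function.Injective (incl F h)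

/-- Let `C` be a cofinal set of pairs `(F, S)`. The sets of isomorphism classes are finite for all pairs
if and only if they are finite for the pairs in `C`. -/
theorem result (T : Theory.{u, v}) (C : Set (T.Fld × Finset T.Prime))
    (hC : ∀ F S, ∃ F' S', T.Galois F F' ∧ S ⊆ S' ∧ (F', S') ∈ C) :
    (∀ F S, Finite (T.Mot F S)) ↔ ∀ x ∈ C, Finite (T.Mot x.1 x.2) := by
  constructor
  · intro h x _
    exact h _ _
  · intro h F S
    obtain ⟨F', S', hF, hS, hmem⟩ := hC F S
    have h1 : Finite (T.Mot F' S') := h _ hmem
    have h2 : Finite (T.Mot F S') := by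
      have h3 : (T.bc hF S' ⁻¹' Set.univ).Finite :=
        Set.Finite.preimage' (Set.toFinite _) fun N _ => T.finite_forms hF S' N
      rw [Set.preimage_univ] at h3
      exact Set.finite_univ_iff.1 h3
    exact Finite.of_injective _ (T.incl_injective F hS)

end Pool.Agent.Results.MP_78e9a5_nt.LargeFieldsSuffice
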