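import Mathlib
import Pool.Agent.TH119.UC.Main

/-!
# A uniform bound for the number of Galois representations dominated by a given one

For all `n` and `m` there is a constant `C` such that for every number field `F`, every prime `l` and
every `m`-dimensional `l`-adic representation `W` of the absolute Galois group of `F` there are at
most `C` isomorphism classes of irreducible `n`-dimensional `l`-adic representations whose Frobenius
eigenvalues are Frobenius eigenvalues of `W`, at a set of primes of density one; and the same holds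
for representations modulo `l` if `l > C`.  The constant does not depend on `F`, on `l`, on the
primes of bad reduction, on the weights or on `W`.
-/

namespace Pool.Agent.Results.MP_78e9a5_nt.UniformCount

open NumberField IsDedekindDomain Polynomial Filter Topology

/-- The absolute Galois group, with the Krull topology. -/
abbrev AbsGal (F : Type) [Field F] : Type := Gal(AlgebraicClosure F/F)

/-- `σ` is a Frobenius element at the prime `v` of `F`: there is a maximal ideal `Q` above `v` of the
ring of all algebraic integers with `σ x ≡ x ^ N(v)` modulo `Q` for all `x`. -/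
def IsFrobenius {F : Type} [Field F] [NumberField F] (v : HeightOneSpectrum (𝓞 F))
    (σ : AbsGal F) : Prop :=
  ∃ Q : Ideal (𝓞 (AlgebraicClosure F)), Q.IsMaximal ∧
    Q.comap (algebraMap (𝓞 F) (𝓞 (AlgebraicClosure F))) = v.asIdeal ∧
    ∀ x : 𝓞 (AlgebraicClosure F), σ • x - x ^ Ideal.absNorm v.asIdeal ∈ Q

/-- The set `S` of primes of `F` has (natural) density zero. Finite sets have density zero. -/
def HasDensityZero {F : Type} [Field F] [NumberField F]
    (S : Set (HeightOneSpectrum (𝓞 F))) : Prop :=
  Tendsto (fun N : ℕ =>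
    ({v : HeightOneSpectrum (𝓞 F) | Ideal.absNorm v.asIdeal ≤ N ∧ v ∈ S}.ncard : ℝ) /
    {v : HeightOneSpectrum (𝓞 F) | Ideal.absNorm v.asIdeal ≤ N}.ncard) atTop (𝓝 0)

/-- `ρ` is dominated by `W`: at the primes outside a set of density zero, the eigenvalues of the
Frobenius elements in `ρ` are eigenvalues of these elements in `W`. -/
def IsDominatedBy {F : Type} [Field F] [NumberField F] {n m : ℕ} {k : Type} [Field k]
    (ρ : AbsGal F →* Matrix.GeneralLinearGroup (Fin n) k)
    (W : AbsGal F →* Matrix.GeneralLinearGroup (Fin m) k) : Prop :=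
  ∃ S : Set (HeightOneSpectrum (𝓞 F)), HasDensityZero S ∧ ∀ v ∉ S, ∀ σ, IsFrobenius v σ →
    ∀ x : k, (ρ σ : Matrix (Fin n) (Fin n) k).charpoly.IsRoot x →
      (W σ : Matrix (Fin m) (Fin m) k).charpoly.IsRoot x

/-- The representation `ρ` is irreducible. -/
def IsIrreducible {G : Type} [Group G] {n : ℕ} {k : Type} [Field k]
    (ρ : G →* Matrix.GeneralLinearGroup (Fin n) k) : Prop :=
  ∀ V : Submodule k (Fin n → k),
    (∀ g, ∀ x ∈ V, (ρ g : Matrix (Fin n) (Fin n) k).mulVec x ∈ V) → V = ⊥ ∨ V = ⊤

/-- The representations `ρ` and `ρ'` are isomorphic. -/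
def AreIsomorphic {G : Type} [Group G] {n : ℕ} {k : Type} [Field k]
    (ρ ρ' : G →* Matrix.GeneralLinearGroup (Fin n) k) : Prop :=
  ∃ T : (Fin n → k) ≃ₗ[k] (Fin n → k), ∀ g v,
    T ((ρ g : Matrix (Fin n) (Fin n) k).mulVec v) = (ρ' g : Matrix (Fin n) (Fin n) k).mulVec (T v)

/-- **Theorem.** For all `n ≥ 1` and `m` there is a constant `C` such that for every number field
`F`, every algebraically closed Hausdorff topological field `k` of characteristic zero or larger than
`C`, and every continuous representation `W` of the absolute Galois group of `F` over `k` in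
dimension `m`, there are at most `C` pairwise non-isomorphic continuous irreducible representations
over `k` in dimension `n` which are dominated by `W`. -/
theorem result (n m : ℕ) (hn : 0 < n) : ∃ C : ℕ,
    ∀ (F : Type) [Field F] [NumberField F]
      (k : Type) [Field k] [IsAlgClosed k] [TopologicalSpace k] [IsTopologicalRing k]
      [T2Space k], (ringChar k = 0 ∨ C < ringChar k) →
      ∀ W : AbsGal F →* Matrix.GeneralLinearGroup (Fin m) k,
      (Continuous fun g => (W g : Matrix (Fin m) (Fin m) k)) →
      ∀ (t : ℕ) (ρ : Fin t → (AbsGal F →* Matrix.GeneralLinearGroup (Fin n) k)),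
        (∀ s, Continuous fun g => (ρ s g : Matrix (Fin n) (Fin n) k)) →
        (∀ s, IsIrreducible (ρ s)) → (∀ s, IsDominatedBy (ρ s) W) →
        (∀ s s', s ≠ s' → ¬ AreIsomorphic (ρ s) (ρ s')) → t ≤ C := by
  obtain ⟨C, hC⟩ := Pool.Agent.TH119.UC.main n m hn
  refine ⟨C, fun F _ _ k _ _ _ _ _ hk W hW t ρ hρ hirr hdom hiso => ?_⟩
  refine hC F k ?_ W hW t ρ hρ hirr hiso fun s => ?_
  · intro N hN hNC h
    have h1 := ringChar.dvd h
    rcases hk with h2 | h2
    · rw [h2, zero_dvd_iff] at h1
      exact hN h1
    · have h3 := Nat.le_of_dvd (Nat.pos_of_ne_zero hN) h1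
      omega
  · obtain ⟨S, hS, h⟩ := hdom s
    exact ⟨S, Pool.Agent.TH119.GO.thin_of_tendsto S hS, h⟩

end Pool.Agent.Results.MP_78e9a5_nt.UniformCount
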